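import Mathlib

/-!
# Lifting of induced cocycles
-/

set_option autoImplicit false

namespace Pool.Agent.EG

open SemidirectProduct

variable {F H C E : Type*} [Group F] [Group H] [Group C] [Group E]

/-- the cocycle of the section `Quotient.out` -/
noncomputable def coc (V : Subgroup F) (g : F) (r : F ⧸ V) : V :=
  ⟨(Quotient.out r)⁻¹ * g * Quotient.out (g⁻¹ • r), by
    have h1 : ((Quotient.out r : F) : F ⧸ V) = r := Quotient.out_eq' r
    have h2 : ((g * Quotient.out (g⁻¹ • r) : F) : F ⧸ V) = r := by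
      have h3 : ((Quotient.out (g⁻¹ • r) : F) : F ⧸ V) = g⁻¹ • r := Quotient.out_eq' _
      have h4 : ((g * Quotient.out (g⁻¹ • r) : F) : F ⧸ V) =
        g • ((Quotient.out (g⁻¹ • r) : F) : F ⧸ V) := rfl
      rw [h4, h3, smul_inv_smul]
    have := QuotientGroup.eq.mp (h1.trans h2.symm)
    rwa [← mul_assoc] at this⟩

theorem coc_coe (V : Subgroup F) (g : F) (r : F ⧸ V) :
    (coc V g r : F) = (Quotient.out r)⁻¹ * g * Quotient.out (g⁻¹ • r) := rfl

theorem coc_mul (V : Subgroup F) (g g' : F) (r : F ⧸ V) :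
    coc V (g * g') r = coc V g r * coc V g' (g⁻¹ • r) := by
  apply Subtype.ext
  rw [Subgroup.coe_mul, coc_coe, coc_coe, coc_coe, mul_inv_rev, mul_smul]
  group

theorem coc_one (V : Subgroup F) (r : F ⧸ V) : coc V 1 r = 1 := by
  have h := coc_mul V 1 1 r
  rw [mul_one, inv_one, one_smul] at h
  exact (left_eq_mul.1 h)

/-- lifting of an induced cocycle along a homomorphism `j : H → F` -/
theorem exists_factor (V : Subgroup F) (f : V →* C) (π : E →* C) (hπ : Function.Surjective π)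
    (j : H →* F)
    (hl : ∀ g : F, ∃ l : (V.comap ((MulAut.conj g).toMonoidHom.comp j)) →* E,
      ∀ a, π (l a) = f ⟨g * j (a : H) * g⁻¹, a.2⟩) :
    ∃ Φ : H →* (F ⧸ V → E) ⋊[mulAutArrow] F, (∀ a, (Φ a).right = j a) ∧
      ∀ a r, π ((Φ a).left r) = f (coc V (j a) r) := by
  classical
  -- local lifts as functions on `H`
  have hl' : ∀ g : F, ∃ l : H → E, (∀ a a', g * j a * g⁻¹ ∈ V → g * j a' * g⁻¹ ∈ V →
      l (a * a') = l a * l a') ∧ ∀ a (h : g * j a * g⁻¹ ∈ V), π (l a) = f ⟨g * j a * g⁻¹, h⟩ := by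
    intro g
    obtain ⟨l, h⟩ := hl g
    refine ⟨fun a => if ha : g * j a * g⁻¹ ∈ V then l ⟨a, ha⟩ else 1, ?_, ?_⟩
    · intro a a' ha ha'
      have haa : g * j (a * a') * g⁻¹ ∈ V := by
        have : g * j (a * a') * g⁻¹ = (g * j a * g⁻¹) * (g * j a' * g⁻¹) := by
          rw [map_mul]; group
        rw [this]
        exact V.mul_mem ha ha'
      simp only [dif_pos ha, dif_pos ha', dif_pos haa]
      rw [← map_mul]
      rfl
    · intro a ha
      simp only [dif_pos ha]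
      exact h ⟨a, ha⟩
  choose l hlm hlf using hl'
  -- orbits
  let R : Setoid (F ⧸ V) :=
    { r := fun q q' => ∃ a : H, j a • q = q'
      iseqv := by
        refine ⟨fun q => ⟨1, by rw [map_one, one_smul]⟩, ?_, ?_⟩
        · rintro q q' ⟨a, rfl⟩
          exact ⟨a⁻¹, by rw [map_inv, inv_smul_smul]⟩
        · rintro q q' q'' ⟨a, rfl⟩ ⟨b, rfl⟩
          exact ⟨b * a, by rw [map_mul, mul_smul]⟩ }
  let rep : F ⧸ V → F ⧸ V := fun q => (Quotient.out (Quotient.mk R q) : F ⧸ V)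
  have hrep : ∀ q, ∃ a : H, j a • rep q = q := fun q =>
    Quotient.exact (Quotient.out_eq (Quotient.mk R q))
  have hrepc : ∀ (a : H) (q : F ⧸ V), rep ((j a)⁻¹ • q) = rep q := by
    intro a q
    have : Quotient.mk R ((j a)⁻¹ • q) = Quotient.mk R q :=
      Quotient.sound ⟨a, smul_inv_smul _ _⟩
    show Quotient.out (Quotient.mk R ((j a)⁻¹ • q)) = Quotient.out (Quotient.mk R q)
    rw [this]
  choose t ht using hrep
  choose b hb using fun q : F ⧸ V => hπ (f (coc V (j (t q)) q))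
  let s : F ⧸ V → F := fun q => (Quotient.out q)⁻¹
  -- the elements `t(q)⁻¹ a t(a⁻¹ q)` fix `rep q`
  have hfix : ∀ (a : H) (q : F ⧸ V), j ((t q)⁻¹ * a * t ((j a)⁻¹ • q)) • rep q = rep q := by
    intro a q
    have h1 := ht ((j a)⁻¹ • q)
    rw [hrepc] at h1
    rw [map_mul, map_mul, mul_smul, mul_smul, h1, smul_inv_smul, map_inv]
    nth_rw 2 [← ht q]
    rw [inv_smul_smul]
  have hmem : ∀ (q₀ : F ⧸ V) (x : H), j x • q₀ = q₀ → s q₀ * j x * (s q₀)⁻¹ ∈ V := by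
    intro q₀ x hx
    have h1 := (coc V (j x) q₀).2
    rw [coc_coe] at h1
    have h2 : (j x)⁻¹ • q₀ = q₀ := by
      rw [inv_smul_eq_iff, hx]
    rw [h2] at h1
    show (Quotient.out q₀)⁻¹ * j x * (Quotient.out q₀)⁻¹⁻¹ ∈ V
    rwa [inv_inv]
  have hval : ∀ (q₀ : F ⧸ V) (x : H) (hx : j x • q₀ = q₀),
      π (l (s q₀) x) = f (coc V (j x) q₀) := by
    intro q₀ x hx
    rw [hlf _ _ (hmem q₀ x hx)]
    congr 1
    apply Subtype.ext
    have h2 : (j x)⁻¹ • q₀ = q₀ := by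
      rw [inv_smul_eq_iff, hx]
    rw [coc_coe, h2]
    show (Quotient.out q₀)⁻¹ * j x * (Quotient.out q₀)⁻¹⁻¹ = _
    rw [inv_inv]
  let L : H → (F ⧸ V) → E := fun a q =>
    b q * l (s (rep q)) ((t q)⁻¹ * a * t ((j a)⁻¹ • q)) * (b ((j a)⁻¹ • q))⁻¹
  have hL : ∀ a a' q, L (a * a') q = L a q * L a' ((j a)⁻¹ • q) := by
    intro a a' q
    have e1 : (j (a * a'))⁻¹ • q = (j a')⁻¹ • (j a)⁻¹ • q := by
      rw [map_mul, mul_inv_rev, mul_smul]
    have e2 : l (s (rep q)) ((t q)⁻¹ * (a * a') * t ((j (a * a'))⁻¹ • q)) =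
        l (s (rep q)) ((t q)⁻¹ * a * t ((j a)⁻¹ • q)) *
          l (s (rep q)) ((t ((j a)⁻¹ • q))⁻¹ * a' * t ((j a')⁻¹ • (j a)⁻¹ • q)) := by
      rw [← hlm _ _ _ (hmem _ _ (hfix a q)) (hmem _ _ ?_), e1]
      · congr 1
        group
      · have := hfix a' ((j a)⁻¹ • q)
        rwa [hrepc] at this
    show b q * l (s (rep q)) ((t q)⁻¹ * (a * a') * t ((j (a * a'))⁻¹ • q)) *
      (b ((j (a * a'))⁻¹ • q))⁻¹ =
      (b q * l (s (rep q)) ((t q)⁻¹ * a * t ((j a)⁻¹ • q)) * (b ((j a)⁻¹ • q))⁻¹) *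
      (b ((j a)⁻¹ • q) * l (s (rep ((j a)⁻¹ • q))) ((t ((j a)⁻¹ • q))⁻¹ * a' *
        t ((j a')⁻¹ • (j a)⁻¹ • q)) * (b ((j a')⁻¹ • (j a)⁻¹ • q))⁻¹)
    rw [hrepc, e2, e1]
    group
  refine ⟨MonoidHom.mk' (fun a => ⟨L a, j a⟩) ?_, fun a => rfl, ?_⟩
  · intro a a'
    refine SemidirectProduct.ext ?_ ?_
    · funext q
      exact hL a a' q
    · exact map_mul j a a'
  · intro a q
    show π (b q * l (s (rep q)) ((t q)⁻¹ * a * t ((j a)⁻¹ • q)) * (b ((j a)⁻¹ • q))⁻¹) = _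
    rw [map_mul, map_mul, map_inv, hb, hb, hval _ _ (hfix a q), mul_inv_eq_iff_eq_mul,
      ← map_mul f, ← map_mul f]
    congr 1
    have h1 : (j (t q))⁻¹ • q = rep q := by
      rw [inv_smul_eq_iff, ht]
    have h3 : coc V (j a * j (t ((j a)⁻¹ • q))) q =
        coc V (j (t q)) q * coc V (j ((t q)⁻¹ * a * t ((j a)⁻¹ • q))) (rep q) := by
      rw [← h1, ← coc_mul, ← map_mul, ← map_mul]
      congr 2
      group
    rw [← h3, coc_mul]

end Pool.Agent.EG
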