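import Mathlib

/-!
# Free products of a free group and groups `A i`
-/

set_option autoImplicit false

namespace Pool.Agent.EG

open scoped commutatorElement

section

variable (X : Type) {ι : Type} (A : ι → Type) [∀ i, Group (A i)]

/-- the free product of the free group on `X` and the groups `A i` -/
abbrev FP : Type := Monoid.Coprod (FreeGroup X) (Monoid.CoprodI A)

end

variable {X ι : Type} {A : ι → Type} [∀ i, Group (A i)]

/-- the free generators -/
def jx (x : X) : FP X A := Monoid.Coprod.inl (FreeGroup.of x)

/-- the inclusion of `A i` -/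
def ja (i : ι) : A i →* FP X A := Monoid.Coprod.inr.comp Monoid.CoprodI.of

/-- the universal property -/
def liftFP {H : Type*} [Group H] (f : X → H) (g : ∀ i, A i →* H) : FP X A →* H :=
  Monoid.Coprod.lift (FreeGroup.lift f) (Monoid.CoprodI.lift g)

@[simp]
theorem liftFP_jx {H : Type*} [Group H] (f : X → H) (g : ∀ i, A i →* H) (x : X) :
    liftFP f g (jx x) = f x := by
  simp [liftFP, jx]

@[simp]
theorem liftFP_ja {H : Type*} [Group H] (f : X → H) (g : ∀ i, A i →* H) (i : ι) (a : A i) :
    liftFP f g (ja i a) = g i a := by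
  simp [liftFP, ja]

theorem hom_extFP {H : Type*} [Group H] {f g : FP X A →* H} (h1 : ∀ x, f (jx x) = g (jx x))
    (h2 : ∀ i a, f (ja i a) = g (ja i a)) : f = g := by
  apply Monoid.Coprod.hom_ext
  · apply FreeGroup.ext_hom
    intro x
    exact h1 x
  · apply Monoid.CoprodI.ext_hom
    intro i
    ext a
    exact h2 i a

theorem ja_injective (i : ι) : Function.Injective (ja i : A i →* FP X A) := by
  classical
  intro a b hab
  have h := congrArg (liftFP (H := A i) (fun _ : X => 1)
    (fun j => if h : j = i then (MulEquiv.cast h : A j ≃* A i).toMonoidHom else 1)) hab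
  simpa using h

/-- a subgroup containing the generators is everything -/
theorem eq_top_of_gen {S : Subgroup (FP X A)} (h1 : ∀ x, jx x ∈ S) (h2 : ∀ i a, ja i a ∈ S) :
    S = ⊤ := by
  rw [eq_top_iff]
  intro g _
  let r : FP X A →* S := liftFP (fun x => ⟨jx x, h1 x⟩) fun i => (ja i).codRestrict S (h2 i)
  have hr : S.subtype.comp r = MonoidHom.id _ := by
    apply hom_extFP
    · intro x
      simp [r]
    · intro i a
      simp [r]
  have := DFunLike.congr_fun hr g
  rw [MonoidHom.comp_apply, MonoidHom.id_apply] at this
  rw [← this]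
  exact (r g).2

instance fg_FP [Finite X] [Finite ι] [∀ i, Finite (A i)] : Group.FG (FP X A) := by
  rw [Group.fg_iff]
  refine ⟨Set.range (jx (A := A)) ∪ ⋃ i, Set.range (ja (X := X) (A := A) i), ?_, ?_⟩
  · apply eq_top_of_gen
    · intro x
      exact Subgroup.subset_closure (Or.inl ⟨x, rfl⟩)
    · intro i a
      exact Subgroup.subset_closure (Or.inr (Set.mem_iUnion.2 ⟨i, a, rfl⟩))
  · exact (Set.finite_range _).union (Set.finite_iUnion fun i => Set.finite_range _)

end Pool.Agent.EG
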