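import Pool.Agent.EG.Free
import Pool.Agent.EG.Coc

/-!
# The lifting lemma, locally trivial subgroups, retractions
-/

set_option autoImplicit false

namespace Pool.Agent.EG

open SemidirectProduct

section

variable {F E : Type*} [Group F] [Group E] (V : Subgroup F)

/-- evaluation at the base point -/
def evalBase (Φ : F →* (F ⧸ V → E) ⋊[mulAutArrow] F) (h : ∀ g, (Φ g).right = g) : V →* E :=
  MonoidHom.mk' (fun v => (Φ v).left ((1 : F) : F ⧸ V)) (by
    intro v w
    rw [Subgroup.coe_mul, map_mul, mul_left, h]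
    have h1 : (v : F)⁻¹ • ((1 : F) : F ⧸ V) = ((1 : F) : F ⧸ V) := by
      show (((v : F)⁻¹ * 1 : F) : F ⧸ V) = ((1 : F) : F ⧸ V)
      rw [mul_one, QuotientGroup.eq, inv_inv, mul_one]
      exact v.2
    show (Φ v).left _ * (Φ w).left ((v : F)⁻¹ • ((1 : F) : F ⧸ V)) = _
    rw [h1])

theorem evalBase_apply (Φ : F →* (F ⧸ V → E) ⋊[mulAutArrow] F) (h : ∀ g, (Φ g).right = g)
    (v : V) : evalBase V Φ h v = (Φ v).left ((1 : F) : F ⧸ V) := rfl

end

variable {X ι : Type} {A : ι → Type} [∀ i, Group (A i)]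

/-- **Lifting lemma**: a homomorphism on a subgroup `V` of the free product lifts along a
surjection if its restrictions to the local subgroups of `V` lift. -/
theorem lifting {C E : Type*} [Group C] [Group E] (V : Subgroup (FP X A)) (f : V →* C)
    (π : E →* C) (hπ : Function.Surjective π)
    (hl : ∀ (i : ι) (g : FP X A), ∃ l : (V.comap ((MulAut.conj g).toMonoidHom.comp (ja i))) →* E,
      ∀ a, π (l a) = f ⟨g * ja i (a : A i) * g⁻¹, a.2⟩) :
    ∃ f' : V →* E, π.comp f' = f := by
  choose Φi hΦr hΦl using fun i => exists_factor V f π hπ (ja i) (hl i)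
  choose b hb using fun (x : X) (r : FP X A ⧸ V) => hπ (f (coc V (jx x) r))
  let Φ : FP X A →* (FP X A ⧸ V → E) ⋊[mulAutArrow] FP X A :=
    liftFP (fun x => ⟨b x, jx x⟩) Φi
  have hΦx : ∀ x, Φ (jx x) = ⟨b x, jx x⟩ := fun x => liftFP_jx _ _ x
  have hΦa : ∀ i a, Φ (ja i a) = Φi i a := fun i a => liftFP_ja _ _ i a
  have hr : ∀ g, (Φ g).right = g := by
    have h1 : (SemidirectProduct.rightHom).comp Φ = MonoidHom.id _ := by
      apply hom_extFP
      · intro x
        rw [MonoidHom.comp_apply, hΦx]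
        rfl
      · intro i a
        rw [MonoidHom.comp_apply, hΦa]
        exact hΦr i a
    exact fun g => DFunLike.congr_fun h1 g
  let S : Subgroup (FP X A) :=
    { carrier := {g | ∀ r, π ((Φ g).left r) = f (coc V g r)}
      one_mem' := fun r => by rw [map_one, coc_one, map_one]; exact map_one π
      mul_mem' := by
        intro g g' hg hg' r
        rw [map_mul, mul_left, hr, coc_mul, map_mul f, ← hg r, ← hg' (g⁻¹ • r), ← map_mul π]
        rfl
      inv_mem' := by
        intro g hg r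
        have h1 : (Φ (g * g⁻¹)).left (g • r) = 1 := by rw [mul_inv_cancel, map_one]; rfl
        rw [map_mul, mul_left, hr] at h1
        have h2 : (Φ g).left (g • r) * (Φ g⁻¹).left (g⁻¹ • g • r) = 1 := h1
        rw [inv_smul_smul] at h2
        have h3 := coc_mul V g g⁻¹ (g • r)
        rw [mul_inv_cancel, coc_one, inv_smul_smul] at h3
        have h4 := congrArg π h2
        rw [map_mul, hg, map_one] at h4
        have h5 := congrArg f h3
        rw [map_one, map_mul] at h5
        exact mul_left_cancel (h4.trans h5) }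
  have hS : S = ⊤ := by
    apply eq_top_of_gen
    · intro x r
      rw [hΦx]
      exact hb x r
    · intro i a r
      rw [hΦa]
      exact hΦl i a r
  have hcoc : ∀ g r, π ((Φ g).left r) = f (coc V g r) := fun g => by
    have : g ∈ S := by rw [hS]; trivial
    exact this
  -- base point
  have hs0 : Quotient.out ((1 : FP X A) : FP X A ⧸ V) ∈ V := by
    have h1 : ((Quotient.out ((1 : FP X A) : FP X A ⧸ V) : FP X A) : FP X A ⧸ V) = (1 : FP X A) :=
      Quotient.out_eq' _
    have h2 := QuotientGroup.eq.1 h1.symm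
    rwa [inv_one, one_mul] at h2
  obtain ⟨e, he⟩ := hπ (f ⟨_, hs0⟩)
  refine ⟨(MulAut.conj e).toMonoidHom.comp (evalBase V Φ hr), ?_⟩
  ext v
  show π (e * (Φ v).left ((1 : FP X A) : FP X A ⧸ V) * e⁻¹) = f v
  rw [map_mul, map_mul, map_inv, hcoc, he, ← map_inv f, ← map_mul f, ← map_mul f]
  congr 1
  apply Subtype.ext
  have h1 : (v : FP X A)⁻¹ • ((1 : FP X A) : FP X A ⧸ V) = ((1 : FP X A) : FP X A ⧸ V) := by
    show (((v : FP X A)⁻¹ * 1 : FP X A) : FP X A ⧸ V) = ((1 : FP X A) : FP X A ⧸ V)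
    rw [mul_one, QuotientGroup.eq, inv_inv, mul_one]
    exact v.2
  simp only [Subgroup.coe_mul, coc_coe, h1, Subgroup.coe_inv]
  group

/-- a subgroup which meets all conjugates of the `A i` trivially -/
def LocTriv (V : Subgroup (FP X A)) : Prop :=
  ∀ (i : ι) (g : FP X A) (a : A i), g * ja i a * g⁻¹ ∈ V → a = 1

theorem LocTriv.mono {V W : Subgroup (FP X A)} (hW : LocTriv W) (h : V ≤ W) : LocTriv V :=
  fun i g a ha => hW i g a (h ha)

/-- locally trivial subgroups are free -/
theorem LocTriv.isFree {V : Subgroup (FP X A)} (hV : LocTriv V) : IsFreeGroup V := by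
  let π : FreeGroup V →* V := FreeGroup.lift id
  have hπ : Function.Surjective π := fun v => ⟨FreeGroup.of v, by simp [π]⟩
  obtain ⟨f', hf'⟩ := lifting V (MonoidHom.id V) π hπ (by
    intro i g
    refine ⟨1, fun a => ?_⟩
    have h1 : (a : A i) = 1 := hV i g a a.2
    rw [MonoidHom.one_apply, map_one, MonoidHom.id_apply]
    apply Subtype.ext
    show (1 : FP X A) = g * ja i (a : A i) * g⁻¹
    rw [h1, map_one]
    group)
  have hinj : Function.Injective f' := by
    intro v w h
    have := congrArg π h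
    have e : ∀ v, π (f' v) = v := fun v => DFunLike.congr_fun hf' v
    rwa [e, e] at this
  have : IsFreeGroup f'.range := inferInstance
  exact IsFreeGroup.ofMulEquiv (MonoidHom.ofInjective hinj).symm

/-- retraction of a subgroup containing `A i` onto `A i` -/
theorem exists_retraction (i : ι) (L : Subgroup (FP X A)) (hL : ∀ a, ja i a ∈ L) :
    ∃ ρ : L →* A i, (∀ a, ρ ⟨ja i a, hL a⟩ = a) ∧
      ∀ (j : ι) (z : FP X A) (b : A j) (h : z * ja j b * z⁻¹ ∈ L), (j = i → z ∉ L) →
        ρ ⟨z * ja j b * z⁻¹, h⟩ = 1 := by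
  classical
  let q₀ : FP X A ⧸ L := ((1 : FP X A) : FP X A ⧸ L)
  have hq : ∀ g : FP X A, g • q₀ = q₀ ↔ g ∈ L := by
    intro g
    show ((g * 1 : FP X A) : FP X A ⧸ L) = ((1 : FP X A) : FP X A ⧸ L) ↔ _
    rw [mul_one, eq_comm, QuotientGroup.eq, inv_one, one_mul]
  have hq' : ∀ g : FP X A, g⁻¹ • q₀ = q₀ ↔ g ∈ L := by
    intro g
    rw [hq, inv_mem_iff]
  let Φi : A i →* (FP X A ⧸ L → A i) ⋊[mulAutArrow] FP X A :=
    MonoidHom.mk' (fun a => ⟨fun r => if r = q₀ then a else 1, ja i a⟩) (by
      intro a a'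
      refine SemidirectProduct.ext ?_ (map_mul _ _ _)
      funext r
      show (if r = q₀ then a * a' else 1) =
        (if r = q₀ then a else 1) * (if (ja i a)⁻¹ • r = q₀ then a' else 1)
      by_cases h : r = q₀
      · rw [if_pos h, if_pos h, if_pos]
        rw [h, hq']
        exact hL a
      · rw [if_neg h, if_neg h, if_neg, mul_one]
        intro h1
        apply h
        rw [inv_smul_eq_iff] at h1
        rw [h1, hq]
        exact hL a)
  let Φ : FP X A →* (FP X A ⧸ L → A i) ⋊[mulAutArrow] FP X A :=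
    liftFP (fun x => ⟨1, jx x⟩) fun j =>
      if h : j = i then Φi.comp (MulEquiv.cast h : A j ≃* A i).toMonoidHom
      else SemidirectProduct.inr.comp (ja j)
  have hΦi : ∀ a : A i, Φ (ja i a) = Φi a := by
    intro a
    refine (liftFP_ja _ _ i a).trans ?_
    rw [dif_pos rfl]
    rfl
  have hΦj : ∀ (j : ι) (b : A j), j ≠ i → Φ (ja j b) = SemidirectProduct.inr (ja j b) := by
    intro j b hj
    refine (liftFP_ja _ _ j b).trans ?_
    rw [dif_neg hj]
    rfl
  have hΦx : ∀ x, Φ (jx x) = ⟨1, jx x⟩ := fun x => liftFP_jx _ _ x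
  have hr : ∀ g, (Φ g).right = g := by
    have h1 : (SemidirectProduct.rightHom).comp Φ = MonoidHom.id _ := by
      apply hom_extFP
      · intro x
        rw [MonoidHom.comp_apply, hΦx]
        rfl
      · intro j a
        rw [MonoidHom.comp_apply]
        by_cases h : j = i
        · subst h
          rw [hΦi]
          rfl
        · rw [hΦj j a h]
          rfl
    exact fun g => DFunLike.congr_fun h1 g
  refine ⟨evalBase L Φ hr, ?_, ?_⟩
  · intro a
    rw [evalBase_apply]
    show (Φ (ja i a)).left q₀ = a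
    rw [hΦi]
    show (if q₀ = q₀ then a else 1) = a
    rw [if_pos rfl]
  · intro j z b h hj
    rw [evalBase_apply]
    show (Φ (z * ja j b * z⁻¹)).left q₀ = 1
    rw [map_mul, map_mul, mul_left, mul_left, mul_right, hr, hr]
    show (Φ z).left q₀ * (Φ (ja j b)).left (z⁻¹ • q₀) * (Φ z⁻¹).left ((z * ja j b)⁻¹ • q₀) = 1
    have h1 : (z * ja j b)⁻¹ • q₀ = z⁻¹ • q₀ := by
      have h2 : (z * ja j b * z⁻¹)⁻¹ • q₀ = q₀ := (hq' _).2 h
      rw [mul_inv_rev, inv_inv, mul_smul] at h2
      rw [eq_inv_smul_iff]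
      exact h2
    have h2 : (Φ (ja j b)).left (z⁻¹ • q₀) = 1 := by
      by_cases hji : j = i
      · subst hji
        rw [hΦi]
        show (if z⁻¹ • q₀ = q₀ then b else 1) = 1
        rw [if_neg]
        rw [hq']
        exact hj rfl
      · rw [hΦj j b hji]
        rfl
    have h3 : (Φ z).left q₀ * (Φ z⁻¹).left (z⁻¹ • q₀) = 1 := by
      have h4 : (Φ (z * z⁻¹)).left q₀ = 1 := by rw [mul_inv_cancel, map_one]; rfl
      rw [map_mul, mul_left, hr] at h4
      exact h4
    rw [h1, h2, mul_one, h3]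

end Pool.Agent.EG
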